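import Pool.Agent.Lib.MP_c6182e_al.FC
import Pool.Agent.Lib.MP_c6182e_al.GroupPart
import Pool.Agent.Lib.MP_c6182e_al.Suff

/-!
# The finite abelian groups that occur as inner mapping groups of loops

A finite abelian group `G` is isomorphic to the inner mapping group of some loop (finite or not) if
and only if `G` is isomorphic to `C_n × C_n × D` for some `n ≥ 1` and some abelian group `D` with
`d ^ n = 1` for all `d` in `D`.  All these groups already occur for finite groups.
-/

universe u v

namespace Pool.Agent.Results.MP_c6182e_al.Classification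

open Pool.Agent.Lib.MP_c6182e_al

/-- `Q` with the operation `mul` is a loop with identity element `e`: the element `e` is a two-sided
identity, and all left translations and all right translations are bijections of `Q`. -/
structure IsLoop {Q : Type v} (mul : Q → Q → Q) (e : Q) : Prop where
  one_mul : ∀ x : Q, mul e x = x
  mul_one : ∀ x : Q, mul x e = x
  left_bij : ∀ a : Q, Function.Bijective (fun x : Q => mul a x)
  right_bij : ∀ a : Q, Function.Bijective (fun x : Q => mul x a)

/-- The multiplication group: the subgroup of the symmetric group on `Q` generated by all left and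
all right translations. -/
def multGroup {Q : Type v} (mul : Q → Q → Q) : Subgroup (Equiv.Perm Q) :=
  Subgroup.closure {σ | ∃ a : Q, (∀ x : Q, σ x = mul a x) ∨ (∀ x : Q, σ x = mul x a)}

/-- The inner mapping group: the stabilizer of the identity element in the multiplication group. -/
def innerGroup {Q : Type v} (mul : Q → Q → Q) (e : Q) : Subgroup (Equiv.Perm Q) :=
  multGroup mul ⊓ MulAction.stabilizer (Equiv.Perm Q) e

/-- The loop structure with divisions. -/
@[reducible]
noncomputable def toLoopStr {Q : Type v} {mul : Q → Q → Q} {e : Q} (h : IsLoop mul e) :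
    LoopStr Q where
  mul := mul
  one := e
  ldiv a b := ((h.left_bij a).2 b).choose
  rdiv a b := ((h.right_bij b).2 a).choose
  one_mul' := h.one_mul
  mul_one' := h.mul_one
  mul_ldiv a b := ((h.left_bij a).2 b).choose_spec
  ldiv_mul a b := (h.left_bij a).1 ((h.left_bij a).2 (mul a b)).choose_spec
  rdiv_mul a b := ((h.right_bij b).2 a).choose_spec
  mul_rdiv a b := (h.right_bij b).1 ((h.right_bij b).2 (mul a b)).choose_spec

theorem inn_eq {Q : Type v} {mul : Q → Q → Q} {e : Q} (h : IsLoop mul e) :
    @inn Q (toLoopStr h) = innerGroup mul e := by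
  let _ : LoopStr Q := toLoopStr h
  have h1 : ({σ | ∃ a : Q, σ = lp a ∨ σ = rp a} : Set (Equiv.Perm Q)) =
      {σ | ∃ a : Q, (∀ x : Q, σ x = mul a x) ∨ (∀ x : Q, σ x = mul x a)} := by
    ext σ
    constructor
    · rintro ⟨a, rfl | rfl⟩
      · exact ⟨a, Or.inl fun x => rfl⟩
      · exact ⟨a, Or.inr fun x => rfl⟩
    · rintro ⟨a, ha | ha⟩
      · exact ⟨a, Or.inl (Equiv.ext ha)⟩
      · exact ⟨a, Or.inr (Equiv.ext ha)⟩
  unfold inn innerGroup mlt multGroup
  rw [h1]
  rfl

/-- The necessary condition. -/
theorem necessary (G : Type u) [CommGroup G] [Finite G] {Q : Type v} {mul : Q → Q → Q} {e : Q}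
    (h : IsLoop mul e) (f : G ≃* innerGroup mul e) :
    ∃ (n : ℕ) (D : Type u) (_ : CommGroup D), 0 < n ∧ (∀ d : D, d ^ n = 1) ∧
      Nonempty (G ≃* Multiplicative (ZMod n) × Multiplicative (ZMod n) × D) := by
  let _ : LoopStr Q := toLoopStr h
  have hinn : inn Q = innerGroup mul e := inn_eq h
  have hA : AIM Q := by
    intro σ hσ τ hτ
    rw [hinn] at hσ hτ
    have h1 := mul_comm (f.symm ⟨σ, hσ⟩) (f.symm ⟨τ, hτ⟩)
    rw [← map_mul, ← map_mul] at h1
    exact congrArg Subtype.val (f.symm.injective h1)
  have hfin : (inn Q : Set (Equiv.Perm Q)).Finite := by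
    rw [hinn]
    have : Finite (innerGroup mul e) := Finite.of_equiv _ f.toEquiv
    exact this
  apply split_two
  intro p hp k g hg hcyc
  have h1 : ∀ (x : G) (n : ℕ), ((f x : Equiv.Perm Q)) ^ n = (f (x ^ n) : Equiv.Perm Q) := by
    intro x n
    rw [map_pow]; rfl
  have h2 : (f g : Equiv.Perm Q) ^ k = 1 := by
    refine main_nec hA hfin hp (h0 := (f g : Equiv.Perm Q)) ?_ ?_ ?_
    · rw [hinn]; exact (f g).2
    · rw [h1, h1, hg, map_one]; rfl
    · intro σ hσ
      rw [hinn] at hσ
      obtain ⟨i, hi⟩ := hcyc (f.symm ⟨σ, hσ⟩)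
      refine ⟨i, ?_⟩
      have h3 : σ = (f (f.symm ⟨σ, hσ⟩) : Equiv.Perm Q) := by
        rw [MulEquiv.apply_symm_apply]
      rw [h3, h1, h1, h1, hi]
  rw [h1] at h2
  have h3 : f (g ^ k) = 1 := Subtype.ext h2
  rwa [map_eq_one_iff f f.injective] at h3

/-- The inner mapping group of a group is the central quotient. -/
theorem inner_of_group (E : Type v) [Group E] :
    Nonempty (E ⧸ Subgroup.center E ≃* innerGroup (fun x y : E => x * y) 1) := by
  let φ : E →* Equiv.Perm E := (MulAut.toPerm E).comp MulAut.conj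
  have hφ : ∀ g x : E, φ g x = g * x * g⁻¹ := fun g x => rfl
  have hker : Subgroup.center E = φ.ker := by
    ext g
    rw [Subgroup.mem_center_iff, MonoidHom.mem_ker]
    constructor
    · intro h
      ext x
      rw [hφ, ← h x, mul_inv_cancel_right]; rfl
    · intro h x
      have h1 := hφ g x
      rw [h] at h1
      rw [eq_mul_inv_iff_mul_eq] at h1
      exact h1
  have hrange : φ.range = innerGroup (fun x y : E => x * y) 1 := by
    ext σ
    rw [innerGroup, Subgroup.mem_inf, MulAction.mem_stabilizer_iff]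
    constructor
    · rintro ⟨g, rfl⟩
      refine ⟨?_, ?_⟩
      · have e1 : φ g = Equiv.mulLeft g * Equiv.mulRight g⁻¹ := by
          ext x
          rw [hφ, Equiv.Perm.mul_apply, Equiv.coe_mulLeft, Equiv.coe_mulRight, mul_assoc]
        rw [e1]
        exact mul_mem (Subgroup.subset_closure ⟨g, Or.inl fun x => rfl⟩)
          (Subgroup.subset_closure ⟨g⁻¹, Or.inr fun x => rfl⟩)
      · change φ g 1 = 1
        rw [hφ, mul_one, mul_inv_cancel]
    · rintro ⟨h1, h2⟩
      have key : ∃ a b : E, ∀ x, σ x = a * x * b := by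
        clear h2
        unfold multGroup at h1
        induction h1 using Subgroup.closure_induction with
        | mem x hx =>
          obtain ⟨a, ha | ha⟩ := hx
          · exact ⟨a, 1, fun y => by rw [ha, mul_one]⟩
          · exact ⟨1, a, fun y => by rw [ha, one_mul]⟩
        | one => exact ⟨1, 1, fun x => by rw [one_mul, mul_one]; rfl⟩
        | mul x y hx hy ihx ihy =>
          obtain ⟨a, b, hab⟩ := ihx
          obtain ⟨c, d, hcd⟩ := ihy
          refine ⟨a * c, d * b, fun z => ?_⟩
          rw [Equiv.Perm.mul_apply, hcd, hab]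
          group
        | inv x hx ih =>
          obtain ⟨a, b, hab⟩ := ih
          refine ⟨a⁻¹, b⁻¹, fun z => ?_⟩
          rw [Equiv.Perm.inv_eq_iff_eq, hab]
          group
      obtain ⟨a, b, hab⟩ := key
      have h3 : σ 1 = 1 := h2
      rw [hab, mul_one] at h3
      refine ⟨a, ?_⟩
      ext x
      rw [hφ, hab, eq_inv_of_mul_eq_one_right h3]
  exact ⟨(QuotientGroup.quotientMulEquivOfEq hker).trans
    ((QuotientGroup.quotientKerEquivRange φ).trans (MulEquiv.subgroupCongr hrange))⟩

/-- A group is a loop. -/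
theorem isLoop_of_group (E : Type v) [Group E] : IsLoop (fun x y : E => x * y) 1 where
  one_mul := fun x => _root_.one_mul x
  mul_one := fun x => _root_.mul_one x
  left_bij := fun a => Group.mulLeft_bijective a
  right_bij := fun a => Group.mulRight_bijective a

/-- The sufficient condition. -/
theorem sufficient (G : Type u) [CommGroup G] [Finite G] (n : ℕ) (D : Type u) [CommGroup D]
    (hn : 0 < n) (hD : ∀ d : D, d ^ n = 1)
    (f : G ≃* Multiplicative (ZMod n) × Multiplicative (ZMod n) × D) :
    ∃ (E : Type v) (_ : Group E), Finite E ∧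
      Nonempty (G ≃* innerGroup (fun x y : E => x * y) 1) := by
  have hDfin : Finite D := by
    refine Finite.of_surjective (fun g : G => (f g).2.2) ?_
    intro d
    exact ⟨f.symm (1, 1, d), congrArg (fun w => w.2.2) (f.apply_symm_apply (1, 1, d))⟩
  obtain ⟨E, _, hE, ⟨ε⟩⟩ := exists_capable'.{u, v} n D hn hD
  obtain ⟨δ⟩ := inner_of_group E
  exact ⟨E, inferInstance, hE, ⟨(f.trans ε.symm).trans δ⟩⟩

/-- The classification of the finite abelian groups that occur as inner mapping groups of loops. -/
theorem result (G : Type u) [CommGroup G] [Finite G] :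
    ((∃ (Q : Type v) (mul : Q → Q → Q) (e : Q),
        IsLoop mul e ∧ Nonempty (G ≃* innerGroup mul e)) ↔
      ∃ (n : ℕ) (D : Type u) (_ : CommGroup D), 0 < n ∧ (∀ d : D, d ^ n = 1) ∧
        Nonempty (G ≃* Multiplicative (ZMod n) × Multiplicative (ZMod n) × D)) ∧
    ((∃ (E : Type v) (_ : Group E), Finite E ∧
        Nonempty (G ≃* innerGroup (fun x y : E => x * y) 1)) ↔
      ∃ (n : ℕ) (D : Type u) (_ : CommGroup D), 0 < n ∧ (∀ d : D, d ^ n = 1) ∧
        Nonempty (G ≃* Multiplicative (ZMod n) × Multiplicative (ZMod n) × D)) := by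
  refine ⟨⟨?_, ?_⟩, ⟨?_, ?_⟩⟩
  · rintro ⟨Q, mul, e, h, ⟨f⟩⟩
    exact necessary G h f
  · rintro ⟨n, D, _, hn, hD, ⟨f⟩⟩
    obtain ⟨E, _, _, hf⟩ := sufficient.{u, v} G n D hn hD f
    exact ⟨E, _, _, isLoop_of_group E, hf⟩
  · rintro ⟨E, _, _, ⟨f⟩⟩
    exact necessary G (isLoop_of_group E) f
  · rintro ⟨n, D, _, hn, hD, ⟨f⟩⟩
    exact sufficient.{u, v} G n D hn hD f

end Pool.Agent.Results.MP_c6182e_al.Classification
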